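import Pool.Agent.MP_145b75_an.Defs
import Pool.Agent.MP_145b75_an.Final

/-! A uniformly recurrent operator on a Banach space which is neither IP*-recurrent nor
Delta*-recurrent. -/

open Pool.Agent.MP_145b75_an

/-- Over the real and over the complex field there is a bounded operator on a Banach space
whose uniformly recurrent vectors are dense, while neither its IP*-recurrent vectors nor its
Delta*-recurrent vectors are dense. -/
theorem Pool.Agent.Results.MP_145b75_an.UniformNotIPStar.result :
    ∀ (𝕜 : Type) [RCLike 𝕜],
      ∃ (X : Type) (_ : NormedAddCommGroup X) (_ : NormedSpace 𝕜 X) (_ : CompleteSpace X)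
        (T : X →L[𝕜] X),
        Dense {x : X | IsUniformlyRecurrent (fun v => T v) x} ∧
        ¬ Dense {x : X | IsIPStarRecurrent (fun v => T v) x} ∧
        ¬ Dense {x : X | IsDeltaStarRecurrent (fun v => T v) x} := by
  intro 𝕜 _
  refine ⟨XX 𝕜, inferInstance, inferInstance, inferInstance, TX, dense_unifRec,
    not_dense_ipStar, fun h => not_dense_ipStar (h.mono ?_)⟩
  intro x hx
  exact IsDeltaStarRecurrent.isIPStarRecurrent hx
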